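import Pool.Agent.Helper86.QA.St4

/-!
# Project QD (MP_d112a4_gt), part A: module CNC, limit points of convex cocompact groups are conical
-/

set_option autoImplicit false

open MeasureTheory Matrix Set Topology Filter
open scoped ENNReal ComplexConjugate ComplexOrder

namespace Pool.Agent.Helper80.QA

open Pool.Agent.Helper86.QA Pool.Agent.Helper20
open Pool.Agent.Helper35.PM (hs IsDiscrete ConvexCocompact limitSet density)
open Pool.Agent.Helper20.QD (sph act orb fr CC)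

/-- the polar form of the determinant -/
private noncomputable def ac (P Q : Mat) : ℂ := (P + Q).det - P.det - Q.det

private theorem ac_conj (A B P Q : Mat) (hA : A.det = 1) (hB : B.det = 1) :
    ac (A * P * B) (A * Q * B) = ac P Q := by
  have h : A * P * B + A * Q * B = A * (P + Q) * B := by
    rw [Matrix.mul_add, Matrix.add_mul]
  unfold ac
  rw [h]
  simp only [Matrix.det_mul, hA, hB, one_mul, mul_one]

private theorem ac_smul (c d : ℂ) (P Q : Mat) : ac (c • P) (d • Q) = c * d * ac P Q := by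
  unfold ac
  simp only [Matrix.det_fin_two, Matrix.add_apply, Matrix.smul_apply, smul_eq_mul]
  ring

private theorem det_smul2 (c : ℂ) (P : Mat) : (c • P).det = c ^ 2 * P.det := by
  simp only [Matrix.det_fin_two, Matrix.smul_apply, smul_eq_mul]
  ring

/-- real coordinates of a Hermitian matrix -/
private theorem herm {P : Mat} (h : P.IsHermitian) :
    (P 0 0).im = 0 ∧ (P 1 1).im = 0 ∧ P 1 0 = conj (P 0 1) := by
  refine ⟨?_, ?_, ?_⟩
  · have h1 := h.apply 0 0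
    have h2 := congrArg Complex.im h1
    simp only [RCLike.star_def, Complex.conj_im] at h2
    linarith
  · have h1 := h.apply 1 1
    have h2 := congrArg Complex.im h1
    simp only [RCLike.star_def, Complex.conj_im] at h2
    linarith
  · have h1 := h.apply 1 0
    simpa using h1.symm

private theorem det_re {P : Mat} (h : P.IsHermitian) :
    P.det.re = (P 0 0).re * (P 1 1).re - ((P 0 1).re ^ 2 + (P 0 1).im ^ 2) := by
  obtain ⟨h0, h1, h2⟩ := herm h
  rw [Matrix.det_fin_two, h2]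
  simp only [Complex.sub_re, Complex.mul_re, Complex.conj_re, Complex.conj_im, h0, h1]
  ring

private theorem trace_re {P : Mat} (ht : P.trace = 1) : (P 0 0).re + (P 1 1).re = 1 := by
  have h := congrArg Complex.re ht
  rw [Matrix.trace_fin_two] at h
  simpa using h

/-- lower bound of the polar form -/
private theorem ac_ge {P Q : Mat} (hP : P.IsHermitian) (hPt : P.trace = 1) (hQ : Q.IsHermitian)
    (hQt : Q.trace = 1) (hQd : Q.det = 0) : P.det.re ≤ (ac P Q).re := by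
  have e : ac P Q = P.det + Q.det - (P - Q).det := by
    unfold ac
    simp only [Matrix.det_fin_two, Matrix.add_apply, Matrix.sub_apply]
    ring
  have hH : (P - Q).IsHermitian := hP.sub hQ
  have h1 := det_re hH
  have h2 := trace_re hPt
  have h3 := trace_re hQt
  rw [e, hQd, add_zero, Complex.sub_re, h1]
  simp only [Matrix.sub_apply, Complex.sub_re]
  have h4 : (P 1 1).re - (Q 1 1).re = -((P 0 0).re - (Q 0 0).re) := by linarith
  rw [h4]
  nlinarith [sq_nonneg ((P 0 0).re - (Q 0 0).re), sq_nonneg ((P 0 1 - Q 0 1).re), sq_nonneg ((P 0 1 - Q 0 1).im)]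

private theorem tr_sq {X : Mat} (hX : X.IsHermitian) : 4 * X.det.re ≤ X.trace.re ^ 2 := by
  rw [det_re hX, Matrix.trace_fin_two, Complex.add_re]
  nlinarith [sq_nonneg ((X 0 0).re - (X 1 1).re), sq_nonneg ((X 0 1).re), sq_nonneg ((X 0 1).im)]

private theorem conj_det (A : SL) : ((A : Mat)ᴴ).det = 1 := by
  rw [Matrix.det_conjTranspose, A.det_coe, star_one]

private theorem conj_herm (A : SL) {P : Mat} (hP : P.IsHermitian) :
    ((A : Mat) * P * (A : Mat)ᴴ).IsHermitian :=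
  Matrix.isHermitian_mul_mul_conjTranspose (A : Mat) hP

private theorem trace_eq (A : SL) {P : Mat} (hP : P.IsHermitian) :
    ((A : Mat) * P * (A : Mat)ᴴ).trace = ((Nn A P : ℝ) : ℂ) := by
  obtain ⟨h0, h1, -⟩ := herm (conj_herm A hP)
  apply Complex.ext
  · rfl
  · rw [Complex.ofReal_im, Matrix.trace_fin_two, Complex.add_im, h0, h1, add_zero]

private theorem det_act (A : SL) {P : Mat} (hP : P.IsHermitian) :
    (act A P).det = (((Nn A P : ℝ) : ℂ)⁻¹) ^ 2 * P.det := by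
  change (((A : Mat) * P * (A : Mat)ᴴ).trace⁻¹ • ((A : Mat) * P * (A : Mat)ᴴ)).det = _
  rw [trace_eq A hP, det_smul2, Matrix.det_mul, Matrix.det_mul, A.det_coe, conj_det, one_mul, mul_one]

private theorem ac_act (A : SL) {P Q : Mat} (hP : P.IsHermitian) (hQ : Q.IsHermitian) :
    ac (act A P) (act A Q) = ((Nn A P : ℝ) : ℂ)⁻¹ * ((Nn A Q : ℝ) : ℂ)⁻¹ * ac P Q := by
  change ac (((A : Mat) * P * (A : Mat)ᴴ).trace⁻¹ • ((A : Mat) * P * (A : Mat)ᴴ))
    (((A : Mat) * Q * (A : Mat)ᴴ).trace⁻¹ • ((A : Mat) * Q * (A : Mat)ᴴ)) = _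
  rw [trace_eq A hP, trace_eq A hQ, ac_smul, ac_conj _ _ _ _ A.det_coe (conj_det A)]

private theorem ac_comb (t : ℝ) (P Q : Mat) (hQ : Q.det = 0) :
    (ac (t • P + (1 - t) • Q) Q).re = t * (ac P Q).re ∧
      (t • P + (1 - t) • Q).det.re = t ^ 2 * P.det.re + t * (1 - t) * (ac P Q).re := by
  have hQ' : Q 0 0 * Q 1 1 - Q 0 1 * Q 1 0 = 0 := by rw [← Matrix.det_fin_two, hQ]
  have e1 : ac (t • P + (1 - t) • Q) Q = (t : ℂ) * ac P Q := by
    unfold ac
    simp only [Matrix.det_fin_two, Matrix.add_apply, Matrix.smul_apply, Complex.real_smul, Complex.ofReal_sub,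
      Complex.ofReal_one]
    linear_combination (2 - 2 * (t : ℂ)) * hQ'
  have e2 : (t • P + (1 - t) • Q).det = ((t ^ 2 : ℝ) : ℂ) * P.det + ((t * (1 - t) : ℝ) : ℂ) * ac P Q := by
    unfold ac
    simp only [Matrix.det_fin_two, Matrix.add_apply, Matrix.smul_apply, Complex.real_smul, Complex.ofReal_sub,
      Complex.ofReal_one, Complex.ofReal_mul, Complex.ofReal_pow]
    linear_combination (1 - (t : ℂ)) ^ 2 * hQ'
  refine ⟨?_, ?_⟩
  · rw [e1, Complex.re_ofReal_mul]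
  · rw [e2, Complex.add_re, Complex.re_ofReal_mul, Complex.re_ofReal_mul]

private theorem ac_cont (Q : Mat) : Continuous (fun P : Mat => (ac P Q).re) := by
  unfold ac
  have h1 : Continuous (fun P : Mat => (P + Q).det) := (continuous_id.add continuous_const).matrix_det
  have h2 : Continuous (fun P : Mat => P.det) := continuous_id.matrix_det
  exact Complex.continuous_re.comp ((h1.sub h2).sub continuous_const)

/-- module CNC -/
theorem hCNC (hLFR : QD.StLFR) (hLQC : QD.StLQC) (hLMX : QD.StLMX) (hLLS : QD.StLLS) : StCNC := by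
  intro Γ _ ρ hcc Q hQ ε hε
  obtain ⟨f1, f2, -, f4⟩ := hLFR
  obtain ⟨-, -, -, -, -, -, -, -, q9, q10, -⟩ := hLQC
  obtain ⟨-, -, -, -, m5, m6⟩ := hLMX
  obtain ⟨-, hsub, -, -, hl5⟩ := hLLS Γ ρ hcc.discrete
  obtain ⟨C, K, ⟨P0, hP0⟩, hconv, hCpos, hCinv, hKc, hKpos, hCK⟩ := hcc.cocompact
  have hQs := hsub hQ
  have hQh : Q.IsHermitian := hQs.1.isHermitian
  -- the constant of K
  obtain ⟨γ₀, hγ₀⟩ := hCK P0 hP0
  obtain ⟨K0, hK0, hmin⟩ := hKc.exists_isMinOn ⟨_, hγ₀⟩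
    ((Complex.continuous_re.comp (continuous_id.matrix_det (n := Fin 2) (R := ℂ))).continuousOn)
  have hdpos : ∀ P : Mat, P.PosDef → 0 < P.det.re := fun P hP => (Complex.pos_iff.1 hP.det_pos).1
  set d₀ : ℝ := K0.det.re with hd₀
  have hd₀p : 0 < d₀ := hdpos K0 (hKpos K0 hK0).1
  have hK : ∀ P ∈ K, d₀ ≤ P.det.re := fun P hP => hmin hP
  -- the base point
  obtain ⟨hP0p, hP0t⟩ := hCpos P0 hP0
  set d : ℝ := P0.det.re with hd
  have hdp : 0 < d := hdpos P0 hP0p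
  set a : ℝ := (ac P0 Q).re with ha
  have hap : 0 < a := lt_of_lt_of_le hdp (ac_ge hP0p.isHermitian hP0t hQh hQs.2.1 hQs.2.2)
  -- a sequence
  choose γ hγ1 hγ2 using fun n : ℕ => hl5 Q hQ (1 / ((n : ℝ) + 1)) (by positivity) (n : ℝ)
  set ν : ℝ := Real.sqrt (4 * d) with hν
  have hνp : 0 < ν := Real.sqrt_pos.2 (by linarith)
  have hlim : Tendsto (fun n => act (ρ (γ n)) P0) atTop (𝓝 Q) := by
    rw [(f4 Q).tendsto_right_iff]
    intro δ hδ
    have h1 : ∀ᶠ n : ℕ in atTop, 1 / ((n : ℝ) + 1) < δ / 4 :=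
      (tendsto_one_div_add_atTop_nhds_zero_nat (𝕜 := ℝ)).eventually_lt_const (by linarith)
    have h2 : ∀ᶠ n : ℕ in atTop, 2 / ν / (n : ℝ) < δ / 4 :=
      (tendsto_const_div_atTop_nhds_zero_nat (2 / ν)).eventually_lt_const (by linarith)
    filter_upwards [h1, h2, eventually_ge_atTop 1] with n hn1 hn2 hn3
    have hn0 : (0 : ℝ) < (n : ℝ) := by exact_mod_cast hn3
    obtain ⟨hN, hfr⟩ := m6 (ρ (γ n)) P0 hP0p hP0t
    have hNν : ν ≤ (((ρ (γ n) : SL) : Mat) * P0 * ((ρ (γ n) : SL) : Mat)ᴴ).trace.re := by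
      have h3 := tr_sq (conj_herm (ρ (γ n)) hP0p.isHermitian)
      rw [Matrix.det_mul, Matrix.det_mul, (ρ (γ n)).det_coe, conj_det, one_mul, mul_one] at h3
      exact Real.sqrt_le_iff.2 ⟨hN.le, h3⟩
    have hfr' : fr (orb ρ (γ n)) (act (ρ (γ n)) P0) < δ / 4 := by
      refine lt_of_le_of_lt hfr (lt_of_le_of_lt ?_ hn2)
      rw [div_div, mul_comm ν]
      exact div_le_div_of_nonneg_left (by norm_num) (by positivity)
        (mul_le_mul (hγ2 n).le hNν hνp.le (hn0.trans (hγ2 n)).le)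
    have hfr2 : fr (orb ρ (γ n)) Q < δ / 4 := (hγ1 n).trans hn1
    have h4 := f2 (act (ρ (γ n)) P0) (orb ρ (γ n)) Q
    rw [(f1 (act (ρ (γ n)) P0) (orb ρ (γ n))).2.1] at h4
    have h5 : Real.sqrt (fr (orb ρ (γ n)) (act (ρ (γ n)) P0)) < Real.sqrt δ / 2 := by
      have h6 : Real.sqrt (δ / 4) = Real.sqrt δ / 2 := by
        rw [Real.sqrt_div hδ.le]
        congr 1
        rw [show (4 : ℝ) = 2 ^ 2 by norm_num]
        exact Real.sqrt_sq (by norm_num)
      rw [← h6]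
      exact Real.sqrt_lt_sqrt (f1 _ _).1 hfr'
    have h7 : Real.sqrt (fr (orb ρ (γ n)) Q) < Real.sqrt δ / 2 := by
      have h6 : Real.sqrt (δ / 4) = Real.sqrt δ / 2 := by
        rw [Real.sqrt_div hδ.le]
        congr 1
        rw [show (4 : ℝ) = 2 ^ 2 by norm_num]
        exact Real.sqrt_sq (by norm_num)
      rw [← h6]
      exact Real.sqrt_lt_sqrt (f1 _ _).1 hfr2
    have h8 : Real.sqrt (fr (act (ρ (γ n)) P0) Q) < Real.sqrt δ := by linarith
    exact (Real.sqrt_lt_sqrt_iff (f1 _ _).1).1 h8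
  -- the parameter
  obtain ⟨t, ht0, ht1, ht⟩ : ∃ t : ℝ, 0 < t ∧ t < 1 ∧ t * a ^ 2 < ε ^ 2 * d₀ * (t * d + (1 - t) * a) := by
    refine ⟨min (1 / 2) (ε ^ 2 * d₀ / (4 * a)), by positivity, lt_of_le_of_lt (min_le_left _ _) (by norm_num), ?_⟩
    set t : ℝ := min (1 / 2) (ε ^ 2 * d₀ / (4 * a)) with htd
    have h1 : t ≤ 1 / 2 := min_le_left _ _
    have h2 : t ≤ ε ^ 2 * d₀ / (4 * a) := min_le_right _ _
    have h0 : 0 < t := by positivity
    rw [le_div_iff₀ (by positivity)] at h2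
    have hE : 0 < ε ^ 2 * d₀ := by positivity
    have h3 : t * a ^ 2 ≤ ε ^ 2 * d₀ * a / 4 := by nlinarith
    have h4 : ε ^ 2 * d₀ * a / 2 ≤ ε ^ 2 * d₀ * (t * d + (1 - t) * a) := by
      have h5 : a / 2 ≤ t * d + (1 - t) * a := by nlinarith [mul_pos h0 hdp]
      have h6 := mul_le_mul_of_nonneg_left h5 hE.le
      linarith
    have h7 : 0 < ε ^ 2 * d₀ * a := by positivity
    linarith
  obtain ⟨c1, c2⟩ := ac_comb t P0 Q hQs.2.2
  have hR : 0 < ε ^ 2 * d₀ * (t • P0 + (1 - t) • Q).det.re - (ac (t • P0 + (1 - t) • Q) Q).re ^ 2 := by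
    rw [c1, c2, ← ha, ← hd]
    have h1 := mul_lt_mul_of_pos_left ht ht0
    nlinarith
  have hcont : Continuous (fun P : Mat => ε ^ 2 * d₀ * P.det.re - (ac P Q).re ^ 2) :=
    (continuous_const.mul (Complex.continuous_re.comp continuous_id.matrix_det)).sub ((ac_cont Q).pow 2)
  have hlim2 : Tendsto (fun n => t • P0 + (1 - t) • act (ρ (γ n)) P0) atTop (𝓝 (t • P0 + (1 - t) • Q)) :=
    tendsto_const_nhds.add (hlim.const_smul (1 - t))
  have hev := (hcont.continuousAt.tendsto.comp hlim2).eventually_const_lt hR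
  obtain ⟨n, hn⟩ := hev.exists
  simp only [Function.comp_apply] at hn
  have hPC : t • P0 + (1 - t) • act (ρ (γ n)) P0 ∈ C :=
    hconv hP0 (hCinv (γ n) P0 hP0) ht0.le (by linarith) (by ring)
  generalize t • P0 + (1 - t) • act (ρ (γ n)) P0 = P at hn hPC
  obtain ⟨hPp, hPt⟩ := hCpos P hPC
  obtain ⟨g, hg⟩ := hCK P hPC
  refine ⟨g, ?_⟩
  have hgK : act (ρ g) P ∈ K := hg
  have hNP : 0 < Nn (ρ g) P := (m6 (ρ g) P hPp hPt).1
  have hNQ : 0 < Nn (ρ g) Q := (m5 (ρ g) Q hQs).1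
  have hQ' := q9 (ρ g) Q hQs
  obtain ⟨hP'p, hP't⟩ := q10 (ρ g) P hPp hPt
  have h1 := ac_ge hP'p.isHermitian hP't hQ'.1.isHermitian hQ'.2.1 hQ'.2.2
  have h2 := hK _ hgK
  rw [ac_act (ρ g) hPp.isHermitian hQh] at h1
  rw [det_act (ρ g) hPp.isHermitian] at h1 h2
  have e1 : ((((Nn (ρ g) P : ℝ) : ℂ)⁻¹) ^ 2 * P.det).re = (Nn (ρ g) P)⁻¹ ^ 2 * P.det.re := by
    rw [← Complex.ofReal_inv, ← Complex.ofReal_pow, Complex.re_ofReal_mul]
  have e2 : (((Nn (ρ g) P : ℝ) : ℂ)⁻¹ * ((Nn (ρ g) Q : ℝ) : ℂ)⁻¹ * ac P Q).re =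
      (Nn (ρ g) P)⁻¹ * (Nn (ρ g) Q)⁻¹ * (ac P Q).re := by
    rw [← Complex.ofReal_inv, ← Complex.ofReal_inv, ← Complex.ofReal_mul, Complex.re_ofReal_mul]
  rw [e1] at h1 h2
  rw [e2] at h1
  have hD : 0 < P.det.re := hdpos P hPp
  have hA : 0 < (ac P Q).re :=
    lt_of_lt_of_le hD (ac_ge hPp.isHermitian hPt hQh hQs.2.1 hQs.2.2)
  generalize Nn (ρ g) P = NP at *
  generalize Nn (ρ g) Q = NQ at *
  generalize P.det.re = D at *
  generalize (ac P Q).re = A at *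
  -- NQ * D ≤ A * NP, d₀ NP² ≤ D, A² < ε² d₀ D
  have k1 : NQ * D ≤ A * NP := by
    have h3 := mul_le_mul_of_nonneg_left h1 (show 0 ≤ NP ^ 2 * NQ by positivity)
    have e3 : NP ^ 2 * NQ * (NP⁻¹ ^ 2 * D) = NQ * D := by field_simp
    have e4 : NP ^ 2 * NQ * (NP⁻¹ * NQ⁻¹ * A) = A * NP := by field_simp
    rwa [e3, e4] at h3
  have k2 : d₀ * NP ^ 2 ≤ D := by
    have h3 := mul_le_mul_of_nonneg_left h2 (show 0 ≤ NP ^ 2 by positivity)
    have e3 : NP ^ 2 * (NP⁻¹ ^ 2 * D) = D := by field_simp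
    rw [e3] at h3
    linarith
  have k3 : A ^ 2 < ε ^ 2 * d₀ * D := by linarith
  have k4 : (NQ * D) ^ 2 ≤ (A * NP) ^ 2 := pow_le_pow_left₀ (by positivity) k1 2
  have k5 : d₀ * (A * NP) ^ 2 ≤ A ^ 2 * D := by
    have := mul_le_mul_of_nonneg_left k2 (sq_nonneg A)
    nlinarith
  have k6 : d₀ * (NQ * D) ^ 2 < d₀ * (ε * D) ^ 2 := by
    calc d₀ * (NQ * D) ^ 2 ≤ d₀ * (A * NP) ^ 2 := mul_le_mul_of_nonneg_left k4 hd₀p.le
      _ ≤ A ^ 2 * D := k5
      _ < ε ^ 2 * d₀ * D * D := mul_lt_mul_of_pos_right k3 hD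
      _ = d₀ * (ε * D) ^ 2 := by ring
  have k7 : (NQ * D) ^ 2 < (ε * D) ^ 2 := lt_of_mul_lt_mul_left k6 hd₀p.le
  have k8 : NQ * D < ε * D := lt_of_pow_lt_pow_left₀ 2 (by positivity) k7
  exact lt_of_mul_lt_mul_right k8 hD.le

end Pool.Agent.Helper80.QA
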