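import Pool.Agent.Helper86.QA.St2

/-!
# Project QD (MP_d112a4_gt), part A: module FVS, finite volume of slabs
-/

set_option autoImplicit false

open MeasureTheory Matrix Set Topology
open scoped ENNReal ComplexConjugate

namespace Pool.Agent.Helper80.QA

open Pool.Agent.Helper86.QA

/-- module FVS -/
theorem hFVS (hVOL : StVOL) (hSW1 : StSW1) (hACU : StACU) (hCPA : StCPA) : StFVS := by
  intro Γ _ ρ A B hKD D hD ε hε
  obtain ⟨hcount, hact, -, -, -, -, -⟩ := hACU Γ ρ A B hKD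
  obtain ⟨-, -, -, -, h2, -⟩ := hCPA Γ ρ A B hKD
  obtain ⟨K, hK, hKup, hKx⟩ := h2 ε hε
  have hKm : MeasurableSet K := hK.isClosed.measurableSet
  have hvol : vol K < ∞ := hVOL.2.2.2 K hK hKup
  let ψ : Pt → ℝ≥0∞ := K.indicator (fun _ => 1)
  have hψ : Measurable ψ := measurable_const.indicator hKm
  let F : Pt → ℝ≥0∞ := fun x => ∑' γ : Γ, ψ (au ρ γ x)
  have hF : Measurable F := Measurable.ennreal_tsum fun γ => hψ.comp (hact.me γ)
  have h1 := (hSW1 Γ Pt (au ρ) up D vol (fun _ => 1) hact hD measurable_const (fun _ _ _ => rfl)).1 ψ hψ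
  simp only [one_mul] at h1
  have h3 : ∫⁻ x, ψ x ∂vol = vol K := by
    rw [lintegral_indicator hKm, setLIntegral_one]
  rw [h3] at h1
  have hsub : D ∩ {x | ε ≤ hv A x ∧ hv A x ≤ 1 - ε} ⊆ {x | 1 ≤ F x} ∩ D := by
    rintro x ⟨hxD, hx1, hx2⟩
    refine ⟨?_, hxD⟩
    obtain ⟨γ, hγ⟩ := hKx x (hD.sub hxD) hx1 hx2
    have h4 : ψ (au ρ γ x) = 1 := indicator_of_mem hγ _
    change 1 ≤ ∑' γ : Γ, ψ (au ρ γ x)
    rw [← h4]
    exact ENNReal.le_tsum γ
  have hmeas : MeasurableSet {x | 1 ≤ F x} := measurableSet_le measurable_const hF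
  have h5 : (1 : ℝ≥0∞) * (vol.restrict D) {x | 1 ≤ F x} ≤ ∫⁻ x in D, F x ∂vol :=
    mul_meas_ge_le_lintegral hF 1
  rw [one_mul, Measure.restrict_apply hmeas] at h5
  calc vol (D ∩ {x | ε ≤ hv A x ∧ hv A x ≤ 1 - ε}) ≤ vol ({x | 1 ≤ F x} ∩ D) := measure_mono hsub
    _ ≤ ∫⁻ x in D, F x ∂vol := h5
    _ = vol K := h1
    _ < ∞ := hvol

end Pool.Agent.Helper80.QA
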